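import Pool.Agent.Q284.InvB.Count

/-!
# MP_eb5881_co, Q1: `des_B` and `des^B` are equidistributed on the involutions of `B_n`
-/

namespace Pool.Agent.Results.MP_eb5881_co.Equidistributed

open Pool.Agent.Q284.InvB Pool.Agent.Q284.RevScen Polynomial

/-- `des_B(w) = #{i ∈ {0,…,n-1} : w(i) >_r w(i+1)}`, for the order
`-1 <_r -2 <_r ⋯ <_r 0 <_r 1 <_r 2 <_r ⋯`. -/
def desR {n : ℕ} (w : SignedPerm n) : ℕ := (DesR w).card

/-- `des^B(w) = #{i ∈ {0,…,n-1} : w(i) > w(i+1)}`, for the usual order. -/
def desC {n : ℕ} (w : SignedPerm n) : ℕ := (DesC w).card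

/-- `I_n^B(x)`, the generating polynomial of `des_B` on the involutions of `B_n`. -/
noncomputable def IB (n : ℕ) : ℤ[X] := ∑ w : InvolB n, X ^ desR w.1

/-- `Ĩ_n^B(x)`, the generating polynomial of `des^B` on the involutions of `B_n`. -/
noncomputable def IBtilde (n : ℕ) : ℤ[X] := ∑ w : InvolB n, X ^ desC w.1

/-- For every `n ≥ 1` the polynomials `I_n^B(x)` and `Ĩ_n^B(x)` are equal: for every `k` the
number of involutions `w` of `B_n` with `des_B(w) = k` equals the number of those with
`des^B(w) = k`. Moreover, for every `K ⊆ {0,…,n-1}` the number of involutions `w` with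
`w(i) >_r w(i+1)` for all `i ∈ K` equals the number of those with `w(i) > w(i+1)` for all
`i ∈ K`. -/
theorem result : ∀ n : ℕ, 1 ≤ n →
    IB n = IBtilde n ∧
    (∀ k : ℕ, Nat.card {w : InvolB n // desR w.1 = k} =
      Nat.card {w : InvolB n // desC w.1 = k}) ∧
    (∀ K : Finset ℕ, K ⊆ Finset.range n →
      Nat.card {w : InvolB n // K ⊆ DesR w.1} = Nat.card {w : InvolB n // K ⊆ DesC w.1}) := by
  intro n _
  have h1 : IB n = IBtilde n := by
    unfold IB IBtilde desR desC
    rw [gen (fun w : InvolB n => DesR w.1) n (fun w => Finset.filter_subset _ _),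
      gen (fun w : InvolB n => DesC w.1) n (fun w => Finset.filter_subset _ _)]
    apply Finset.sum_congr rfl
    intro K hK
    rw [card_eq (Finset.mem_powerset.1 hK)]
  refine ⟨h1, fun k => ?_, fun K hK => card_eq hK⟩
  have h2 := congrArg (fun p => Polynomial.coeff p k) h1
  simp only [IB, IBtilde, coeff_gen] at h2
  exact_mod_cast h2

end Pool.Agent.Results.MP_eb5881_co.Equidistributed
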